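import Pool.Agent.Lib.MP_5684f0_lc.G.Base

/-! A base of open sets with trees of conditions for bits that are revealed board by board. -/

namespace Pool.Agent.Lib.MP_5684f0_lc.W

open Filter Topology Set PiNat G

variable {D α : Type} [TopologicalSpace D] [DiscreteTopology D] {p : Y D → ℕ → α}
  {V : ℕ → ℕ → Bool → Set (Y D)}

/-- The last `k` boards below `n` can be fixed one after the other, and then `E` is met. -/
def Tre (p : Y D → ℕ → α) (V : ℕ → ℕ → Bool → Set (Y D)) (O : ℕ → Set (Y D)) (a : ℕ → ℕ)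
    (E : Set (ℕ → Y D)) (n : ℕ) : ℕ → (ℕ → Set (Y D)) → Prop
  | 0, e => ∀ w : ℕ → Y D, (∀ m < n, w m ∈ e m) → (∀ m, n ≤ m → w m ∈ O m) → w ∈ E
  | k + 1, e => ∀ b, ∃ e' : ℕ → Set (Y D), (∀ m < n - (k + 1), e m ⊆ e' m) ∧
      (∀ m < n, IsOpen (e' m) ∧ e' m ⊆ O m ∧ Sh p (e m) (e' m)) ∧
      e' (n - (k + 1)) ⊆ V (n - (k + 1)) (a (n - (k + 1))) b ∧ Tre p V O a E n k e'

omit [DiscreteTopology D] in
theorem Tre.mono {O O' : ℕ → Set (Y D)} {a a' : ℕ → ℕ} {E : Set (ℕ → Y D)} {n : ℕ}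
    (h1 : ∀ m < n, O' m = O m ∧ a' m = a m) (h2 : ∀ m, n ≤ m → O' m ⊆ O m) :
    ∀ k ≤ n, ∀ e, Tre p V O a E n k e → Tre p V O' a' E n k e := by
  intro k
  induction k with
  | zero => exact fun _ e h w a b => h w a fun m hm => h2 m hm (b m hm)
  | succ k ih =>
    intro hk e h b
    obtain ⟨e', a1, a2, a3, a4⟩ := h b
    exact ⟨e', a1, fun m hm => (h1 m hm).1 ▸ a2 m hm, (h1 (n - (k + 1)) (by omega)).2 ▸ a3,
      ih (by omega) _ a4⟩

theorem tree {n : ℕ} {O : ℕ → Set (Y D)} {a : ℕ → ℕ} (hF : ∀ m < n, Free p (V m) (O m) (a m))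
    {E : Set (ℕ → Y D)} (hE : IsOpen E) (hE' : Dense E) : ∀ k ≤ n, ∀ c, Cnd c →
    (∀ m < n, c m ⊆ O m) → ∃ c', Cnd c' ∧ (∀ m < n, c' m ⊆ O m ∧ Sh p (c' m) (c m)) ∧
      (∀ m, m < n - k ∨ n ≤ m → c' m ⊆ c m) ∧
      Tre p V (fun m => if m < n then O m else c' m) a E n k c' := by
  intro k
  induction k with
  | zero =>
    intro _ c hc hO
    obtain ⟨_, c', c1, c2, -, c4⟩ := hc.shrink (Z := fun _ => E) (fun _ => hE)
      (by rwa [iUnion_const]) 0
    refine ⟨c', c1, fun m hm => ⟨(c2 m).trans (hO m hm), .of_subset (c2 m)⟩, fun m _ => c2 m,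
      fun w h1 h2 => c4 w fun m => ?_⟩
    rcases lt_or_ge m n with h | h
    exacts [h1 m h, by simpa only [if_neg h.not_gt] using h2 m h]
  | succ k ih =>
    intro hk
    obtain ⟨i, hi⟩ : ∃ i, i = n - (k + 1) := ⟨_, rfl⟩
    have mv : ∀ b c, Cnd c → (∀ m < n, c m ⊆ O m) → ∃ c', Cnd c' ∧
        (∀ m < n, c' m ⊆ O m ∧ Sh p (c' m) (c m)) ∧ (∀ m, m < i ∨ n ≤ m → c' m ⊆ c m) ∧
        c' i ⊆ V i (a i) b ∧ Tre p V (fun m => if m < n then O m else c' m) a E n k c' := by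
      intro b c hc hO
      obtain ⟨B, b1, b2, b3, b4⟩ := hF i (by omega) _ (hc.op i) (hc.ne i) (hO i (by omega)) b
      obtain ⟨L, hL⟩ := hc.fin
      obtain ⟨c', c1, c2, c3, c4⟩ := ih (by omega) (Function.update c i B)
        ⟨fun m => by
          by_cases h : m = i
          exacts [by rw [h, Function.update_self]; exact b1, by rw [Function.update_of_ne h]; exact hc.op m],
        fun m => by
          by_cases h : m = i
          exacts [by rw [h, Function.update_self]; exact b2, by rw [Function.update_of_ne h]; exact hc.ne m],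
        max L n, fun m hm => by rw [Function.update_of_ne (by omega), hL m (by omega)]⟩
        fun m hm => by
          by_cases h : m = i
          exacts [by rw [h, Function.update_self]; exact b3.trans inter_subset_left,
            by rw [Function.update_of_ne h]; exact hO m hm]
      refine ⟨c', c1, fun m hm => ⟨(c2 m hm).1, (c2 m hm).2.trans ?_⟩, fun m hm => ?_, ?_, c4⟩
      · by_cases h : m = i
        exacts [by rw [h, Function.update_self]; exact b4,
          by rw [Function.update_of_ne h]; exact .of_subset Subset.rfl]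
      · simpa only [Function.update_of_ne (show m ≠ i by omega)] using c3 m (by omega)
      · exact ((c3 i (by omega)).trans (Function.update_self ..).subset).trans
          (b3.trans inter_subset_right)
    intro c hc hO
    obtain ⟨c1, a1, a2, a3, a4, a5⟩ := mv true c hc hO
    obtain ⟨c2, b1, b2, b3, b4, b5⟩ := mv false c1 a1 fun m hm => (a2 m hm).1
    refine ⟨c2, b1, fun m hm => ⟨(b2 m hm).1, (b2 m hm).2.trans (a2 m hm).2⟩,
      fun m hm => (b3 m (hi ▸ hm)).trans (a3 m (hi ▸ hm)), fun b => ?_⟩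
    rw [← hi]
    cases b
    · exact ⟨c2, fun _ _ => Subset.rfl, fun m hm => ⟨b1.op m, by simpa only [if_pos hm] using
        (b2 m hm).1, .of_subset Subset.rfl⟩, b4, b5⟩
    · exact ⟨c1, fun m hm => b3 m (Or.inl hm), fun m hm => ⟨a1.op m, by
        simpa only [if_pos hm] using (a2 m hm).1, (b2 m hm).2⟩, a4,
        Tre.mono (fun m hm => ⟨by simp only [if_pos hm], rfl⟩) (fun m hm => by
          simpa only [if_neg hm.not_gt] using b3 m (Or.inr hm)) k (by omega) _ a5⟩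

/-- The answer to a request. -/
def Rq (p : Y D → ℕ → α) (V : ℕ → ℕ → Bool → Set (Y D)) (O : ℕ → Set (Y D)) (a : ℕ → ℕ)
    (E : Set (ℕ → Y D)) (u : ℕ → Set (Y D)) (i n : ℕ) : Prop :=
  ∃ e : ℕ → Set (Y D), (∀ m < n, (e m).Nonempty ∧ Sh p (e m) (u m) ∧ (m < i → e m ⊆ u m)) ∧
    Tre p V O a E n (n - i) e

theorem stage (HF : ∀ m A, IsOpen A → A.Nonempty →
      ∃ O a, IsOpen O ∧ O.Nonempty ∧ O ⊆ A ∧ Free p (V m) O a)
    {Z : ℕ → Set (ℕ → Y D)} (hZ : ∀ d, IsOpen (Z d)) (hd : Dense (⋃ d, Z d))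
    {E : Set (ℕ → Y D)} (hE : IsOpen E) (hE' : Dense E) (x : ℕ → Y D) (s l i : ℕ) {n : ℕ}
    {c : ℕ → Set (Y D)} (hc : Cnd c) (hF : ∀ m < n, ∃ a, Free p (V m) (c m) a) :
    ∃ c' d, (Cnd c' ∧ ∀ m < n + 1, ∃ a, Free p (V m) (c' m) a) ∧ (∀ m < n, c' m = c m) ∧
      (∀ m, c' m ⊆ c m) ∧
      (∀ w : ℕ → Y D, (∀ m, n ≤ m → w m ∈ c' m) → (fun m => w (m + n)) ∈ Z d) ∧
      (i ≤ n → (∀ m < n, st x s l c m ⊆ c m) → Rq p V c'
        (fun m => Classical.epsilon (Free p (V m) (c m))) E (st x s l c) i n) := by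
  have h1 : ∃ c1, Cnd c1 ∧ (∀ m, n ≤ m → c1 m ⊆ c m) ∧
      (i ≤ n → (∀ m < n, st x s l c m ⊆ c m) → Rq p V (fun m => if m < n then c m else c1 m)
        (fun m => Classical.epsilon (Free p (V m) (c m))) E (st x s l c) i n) := by
    by_cases h : i ≤ n ∧ ∀ m < n, st x s l c m ⊆ c m
    · obtain ⟨L, hL⟩ := hc.fin
      obtain ⟨c1, a1, a2, a3, a4⟩ := tree (p := p) (V := V) (O := c)
        (a := fun m => Classical.epsilon (Free p (V m) (c m)))
        (fun m hm => Classical.epsilon_spec (hF m hm)) hE hE' (n - i) (Nat.sub_le _ _)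
        (fun m => if m < n then st x s l c m else c m) ⟨fun m => by
          unfold st; split_ifs; exacts [cyl_open _ _, hc.op m, hc.op m], fun m => by
          unfold st; split_ifs; exacts [⟨_, self_mem_cylinder _ _⟩, hc.ne m, hc.ne m],
          max L n, fun m hm => by rw [if_neg (by omega), hL m (by omega)]⟩
        fun m hm => by simpa only [if_pos hm] using h.2 m hm
      exact ⟨c1, a1, fun m hm => by simpa only [if_neg hm.not_gt] using a3 m (Or.inr hm),
        fun _ _ => ⟨c1, fun m hm => ⟨a1.ne m, by simpa only [if_pos hm] using (a2 m hm).2,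
          fun hi => by simpa only [if_pos hm] using a3 m (Or.inl (by omega))⟩, a4⟩⟩
    · exact ⟨c, hc, fun _ _ => Subset.rfl, fun a b => absurd ⟨a, b⟩ h⟩
  obtain ⟨c1, a1, a3, a4⟩ := h1
  obtain ⟨L, hL⟩ := a1.fin
  have h2 : Cnd fun m => c1 (m + n) :=
    ⟨fun m => a1.op _, fun m => a1.ne _, L, fun m hm => hL _ (by omega)⟩
  obtain ⟨d, c2, b1, b2, -, b4⟩ := h2.shrink hZ hd 0
  obtain ⟨O, a, o1, o2, o3, o4⟩ := HF n _ (b1.op 0) (b1.ne 0)
  obtain ⟨L', hL'⟩ := b1.fin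
  let c' : ℕ → Set (Y D) := fun m => if m < n then c m else if m = n then O else c2 (m - n)
  have e1 : ∀ m < n, c' m = c m := fun m hm => if_pos hm
  have e2 : c' n = O := by simp [c']
  have e3 : ∀ m, n ≤ m → c' m ⊆ c2 (m - n) := by
    intro m hm
    rcases hm.eq_or_lt with rfl | hm
    · rw [e2, Nat.sub_self]; exact o3
    · simp only [c', if_neg hm.le.not_gt, if_neg hm.ne']; exact Subset.rfl
  have e4 : ∀ m, n ≤ m → c' m ⊆ c1 m := fun m hm => (e3 m hm).trans (by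
    have := b2 (m - n)
    rwa [Nat.sub_add_cancel hm] at this)
  refine ⟨c', d, ⟨⟨fun m => ?_, fun m => ?_, L' + n + 1, fun m hm => ?_⟩, fun m hm => ?_⟩, e1,
    fun m => ?_, fun w hw => b4 _ fun m => ?_, fun h h' => (a4 h h').imp fun e he => ⟨he.1,
      Tre.mono (fun m hm => ⟨by simp only [c', if_pos hm], rfl⟩) (fun m hm => by
        simpa only [if_neg hm.not_gt] using e4 m hm) _ (Nat.sub_le _ _) _ he.2⟩⟩
  · simp only [c']; split_ifs; exacts [hc.op m, o1, b1.op _]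
  · simp only [c']; split_ifs; exacts [hc.ne m, o2, b1.ne _]
  · simp only [c']
    rw [if_neg (by omega), if_neg (by omega), hL' _ (by omega)]
  · rcases (Nat.lt_succ_iff.1 hm).eq_or_lt with rfl | hm
    · exact ⟨a, e2 ▸ o4⟩
    · exact e1 m hm ▸ hF m hm
  · rcases lt_or_ge m n with h | h
    · exact (e1 m h).subset
    · exact (e4 m h).trans (a3 m h)
  · simpa using e3 (m + n) (by omega) (hw (m + n) (by omega))

theorem base [Countable D] [Nonempty D] (HF : ∀ m A, IsOpen A → A.Nonempty →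
      ∃ O a, IsOpen O ∧ O.Nonempty ∧ O ⊆ A ∧ Free p (V m) O a)
    {Z : ℕ → ℕ → Set (ℕ → Y D)} (hZ : ∀ i d, IsOpen (Z i d)) (hd : ∀ i, Dense (⋃ d, Z i d))
    {E : ℕ → Set (ℕ → Y D)} (hE : ∀ j, IsOpen (E j)) (hE' : ∀ j, Dense (E j)) :
    ∃ (O : ℕ → Set (Y D)) (a d : ℕ → ℕ), (∀ m, IsOpen (O m) ∧ (O m).Nonempty) ∧
      (∀ i (w : ℕ → Y D), (∀ m, w m ∈ O m) → (fun m => w (m + i)) ∈ Z i (d i)) ∧
      ∀ (x : ℕ → Y D) (s l i : ℕ), i ≤ s → (∀ m < s, cylinder (x m) l ⊆ O m) →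
        ∃ n, s ≤ n ∧ Rq p V O a (E i) (st x s l O) i n := by
  let T := fun n => {c : ℕ → Set (Y D) // Cnd c ∧ ∀ m < n, ∃ a, Free p (V m) (c m) a}
  let r := TopologicalSpace.denseSeq (ℕ → Y D)
  choose F d F1 F2 F3 F4 F5 using fun (n : ℕ) (c : T n) =>
    stage HF (hZ n) (hd n) (hE n.unpair.2.unpair.2.unpair.2)
      (hE' n.unpair.2.unpair.2.unpair.2) (r n.unpair.2.unpair.1) n.unpair.1
      n.unpair.2.unpair.2.unpair.1 n.unpair.2.unpair.2.unpair.2 c.2.1 c.2.2
  let q : ∀ n, T n := fun n => Nat.rec (motive := T)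
    ⟨fun _ => univ, ⟨fun _ => isOpen_univ, fun _ => univ_nonempty, 0, fun _ _ => rfl⟩,
      fun m hm => absurd hm (Nat.not_lt_zero m)⟩ (fun n c => ⟨F n c, F1 n c⟩) n
  let O : ℕ → Set (Y D) := fun m => (q (m + 1)).1 m
  have e1 : ∀ m n, m < n → (q n).1 m = O m := by
    intro m n h
    induction h with
    | refl => rfl
    | @step k h ih => exact (F2 k (q k) m h).trans ih
  have e2 : ∀ m n n', n ≤ n' → (q n').1 m ⊆ (q n).1 m := by
    intro m n n' h
    induction h with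
    | refl => exact Subset.rfl
    | @step k _ ih => exact (F3 k (q k) m).trans ih
  have e3 : ∀ n m, n ≤ m → O m ⊆ F n (q n) m := fun n m h => e2 m (n + 1) (m + 1) (by omega)
  refine ⟨O, fun m => Classical.epsilon (Free p (V m) (O m)), fun n => d n (q n),
    fun m => ⟨(q (m + 1)).2.1.op m, (q (m + 1)).2.1.ne m⟩,
    fun i w hw => F4 i (q i) w fun m hm => e3 i m hm (hw m), fun x s l i hi hx => ?_⟩
  obtain ⟨k, hk⟩ := (TopologicalSpace.denseRange_denseSeq (ℕ → Y D)).exists_mem_open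
    (isOpen_set_pi (finite_Iio s) fun m _ => cyl_open (x m) l)
    ⟨x, fun m _ => self_mem_cylinder _ _⟩
  obtain ⟨n, hn⟩ : ∃ n, n = Nat.pair s (Nat.pair k (Nat.pair l i)) := ⟨_, rfl⟩
  have h5 := F5 n (q n)
  rw [show n.unpair = (s, Nat.pair k (Nat.pair l i)) by simp [hn]] at h5
  simp only [Nat.unpair_pair] at h5
  have hs : s ≤ n := hn ▸ Nat.left_le_pair _ _
  have e4 : ∀ m < n, st x s l O m = st (r k) s l (q n).1 m := by
    intro m hm
    unfold st
    split_ifs with h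
    · exact (mem_cylinder_iff_eq.1 (hk m h)).symm
    · exact (e1 m n hm).symm
  obtain ⟨e, a1, a2⟩ := h5 (hi.trans hs) fun m hm => by
    rw [← e4 m hm, e1 m n hm]
    unfold st
    split_ifs with h
    exacts [hx m h, Subset.rfl]
  exact ⟨n, hs, e, fun m hm => e4 m hm ▸ a1 m hm, Tre.mono (fun m hm =>
    ⟨(e1 m (n + 1) (by omega)).symm, by rw [e1 m n hm]⟩) (e3 n) _ (Nat.sub_le _ _) _ a2⟩

end Pool.Agent.Lib.MP_5684f0_lc.W
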