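import Pool.Agent.Lib.MP_5684f0_lc.T.Sum

/-! The removal of infinitely many layers of limits when no level lies above all of them. -/

namespace Pool.Agent.Lib.MP_5684f0_lc.W

open Filter Topology Set PiNat G T

variable {D α : Type} {O : ℕ → Set (Y D)} [Inhabited D] {I : Type}

theorem spec_lim {L : ℕ → Lay} {c : ℕ} {C : Kl} (hC : Good C)
    {q : ℕ → Y D → ℕ → α} (hq' : ∀ n, Lip (q (n + 1)) (q n))
    {Φ : ℕ → Str O (I × Hi D) → Str O (I × Hi D)}
    (hΦ : ∀ n, Spec (L n) (c + n + 1) (Cp L c C n) (q (n + 1)) (q n) (Φ n)) (τ : Str O I)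
    (h : ∀ j, Ms (.sum L) c C (c + j) _ (τ j)) (hr : ∀ y i (H : Hi D) n, (∀ k, (H n).1 k ∈ O k) →
      Rs (q n) (H n) (ans (q 0) H (n + 1) (τ (n + 1) y i))) :
    ∃ Ψ : Str O I, (∀ t, C (c + t) _ (Ψ t)) ∧ ∀ y i π', c ≤ (τ 0 y i default).l →
      Play (q 0) (fun t => Ψ t y i) π' → ∃ π, Play (q 0) (fun t => τ t y i) π ∧ Tr (q 0) π π' := by
  let p := q 0
  obtain ⟨g1, g2⟩ := hC.cp (L := L) (c := c)
  let σ : Str O I → ℕ → Str O (I × Hi D) := fun τ n t => fu p Φ τ t n t
  have e0 : ∀ τ n, σ τ n 0 = fun y i _ => ans p i.2 n (τ n y i.1) := fun _ _ => rfl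
  have e1 : ∀ τ n t, σ τ n (t + 1) = fun y i π => Φ n (σ τ (n + 1)) t y
      (i.1, Function.update i.2 n (π 0)) fun j => π (j + 1) := fun τ n t => by
    simp only [σ, fu]
    rw [(hΦ n).cau _ _ t fun j hj => fu_congr (fun n => (hΦ n).cau) j (n + 1) t j hj le_rfl
      fun _ _ => rfl]
  have c0 : ∀ τ : Str O I, (∀ j, Ms (.sum L) c C (c + j) _ (τ j)) → ∀ n,
      Cp L c C (n - 1) (c + n) _ (σ τ n 0) := fun τ h n => by
    have h1 : Cp L c C (c + n - (c + 1)) (c + n) _ (τ n) := h n
    rw [show c + n - (c + 1) = n - 1 by omega] at h1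
    exact (g1 _).map (fun a (i : I × Hi D) (_ : Hi D) => ans p i.2 n (a i.1)) h1
  have c1 : ∀ τ : Str O I, (∀ j, Ms (.sum L) c C (c + j) _ (τ j)) → ∀ t n,
      Cp L c C n (c + n + t) _ (σ τ n t) := fun τ h t => by
    induction t using Nat.strong_induction_on with
    | _ t ih =>
    intro n
    rcases t with _ | t
    · exact g2 _ _ (Nat.sub_le n 1) _ _ _ (c0 τ h n)
    have h1 := (hΦ n).cls (fun j => if j ≤ t then σ τ (n + 1) j else σ τ (n + 1) 0)
      (c0 τ h (n + 1)) (fun j => by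
        split_ifs with hj
        exacts [ih j (by omega) (n + 1), (g1 (n + 1)).mono (by omega) (ih 0 (by omega) (n + 1))]) t
    rw [(hΦ n).cau _ (σ τ (n + 1)) t fun j hj => if_pos hj] at h1
    rw [e1, show c + n + (t + 1) = c + n + 1 + t by omega]
    exact (g1 n).map (fun a (i : I × Hi D) (π : Hi D) =>
      a (i.1, Function.update i.2 n (π 0)) fun j => π (j + 1)) h1
  refine ⟨fun t y i => σ τ 0 t y (i, default),
    fun t => hC.map (fun a i => a (i, default)) (c1 τ h t 0), fun y i π0 h1 h2 => ?_⟩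
  let T := fun n => {w : Hi D × Hi D // c + n ≤ (ans p w.1 n (τ n y i)).l ∧
    Play (q n) (fun t => σ τ n t y (i, w.1)) w.2}
  have step : ∀ n (w : T n), ∃ w' : T (n + 1), w'.1.1 = Function.update w.1.1 n (w.1.2 0) ∧
      Tr (q n) w'.1.2 fun j => w.1.2 (j + 1) := by
    rintro n ⟨⟨H, π⟩, a1, a2⟩
    dsimp only at a1 a2 ⊢
    have a3 : (ans p H n (τ n y i)).Lg (π 0) := a2 0
    have a4 : Rs (q n) (π 0) (ans p (Function.update H n (π 0)) (n + 1) (τ (n + 1) y i)) := by
      have := hr y i (Function.update H n (π 0)) n (by rw [Function.update_self]; exact a3.2.1)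
      rwa [Function.update_self] at this
    have a5 : c + (n + 1) ≤ (ans p (Function.update H n (π 0)) (n + 1) (τ (n + 1) y i)).l := by
      have := a4.2
      have := a3.2.2
      have := (ans p (Function.update H n (π 0)) (n + 1) (τ (n + 1) y i)).ok.1
      omega
    obtain ⟨π', b1, b2⟩ := (hΦ n).ply (σ τ (n + 1)) (fun j => c1 τ h j (n + 1)) y
      (i, Function.update H n (π 0)) (fun j => π (j + 1)) a5 fun t => by
        have b0 := a2 (t + 1)
        have b1 : cut (t + 1) π 0 = π 0 := if_pos (Nat.succ_pos t)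
        have b2 : (fun j => cut (t + 1) π (j + 1)) = cut t fun j => π (j + 1) :=
          funext fun j => by simp [cut]
        simp only [e1, ans.eq_2 (q n), b1, b2] at b0
        rcases t with _ | t
        · rw [show cut 0 (fun j => π (j + 1)) = default from rfl, (hΦ n).ini, e0,
            val_of a4] at b0
          simpa only [ans, (hΦ n).ini, e0] using b0
        · exact b0
    exact ⟨⟨(_, π'), a5, b1⟩, rfl, b2⟩
  choose F F1 F2 using step
  let w : ∀ n, T n := fun n => Nat.rec (motive := T) ⟨(default, π0), h1, h2⟩ F n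
  have w1 : ∀ n, ∀ j < n, (w n).1.1 j = (w j).1.2 0 := fun n => by
    induction n with
    | zero => exact fun j hj => absurd hj (Nat.not_lt_zero j)
    | succ n ih =>
      intro j hj
      rw [show (w (n + 1)).1.1 = _ from F1 n (w n)]
      rcases (Nat.lt_succ_iff.1 hj).eq_or_lt with rfl | hj
      exacts [Function.update_self .., (Function.update_of_ne hj.ne _ _).trans (ih j hj)]
  have w2 : ∀ n, Lip (q n) (q 0) := fun n => by
    induction n with
    | zero => exact fun _ _ _ h => h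
    | succ n ih => exact fun _ _ _ h => ih (hq' n h)
  have w3 : ∀ n s, (π0 (n + s)).2 ≤ ((w n).1.2 s).2 ∧
      Agr (q 0) ((w n).1.2 s).1 (π0 (n + s)).1 (π0 (n + s)).2 := fun n => by
    induction n with
    | zero =>
      intro s
      rw [Nat.zero_add]
      exact ⟨le_rfl, fun _ _ => self_mem_cylinder _ _⟩
    | succ n ih =>
      intro s
      have h3 := F2 n (w n) s
      have h4 := ih (s + 1)
      rw [show n + 1 + s = n + (s + 1) by omega]
      exact ⟨h4.1.trans h3.1, Agr.trans (fun m hm => w2 n (h3.2 m hm)) h4.2 h4.1⟩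
  refine ⟨fun n => (w n).1.2 0, fun n => ?_, fun n => w3 n 0⟩
  rw [ans_congr (π' := (w n).1.1) fun j hj => (w1 n j hj).symm]
  exact (w n).2.2 0

theorem run (hO : Opn O) {L : ℕ → Lay} {q : ℕ → Y D → ℕ → α} (hp : ∀ n, Lip id (q n))
    (hT : ∀ n, Tower (L n) (0 + n + 1) (q (n + 1)) (q n))
    (fz : ∀ m t, m < t → ∀ y, ∀ z ∈ O m, ∀ M, q t y ∈ cylinder (q t z) M → y ∈ cylinder z M)
    {S : Type} (s0 : S) (o : S → Out O) {Inv : ℕ → S → Prop} (i0 : Inv 0 s0)
    {R : ℕ → S → Bool → S → Prop} (tot : ∀ t s a m, Inv t s → (o s).Lg m →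
      ∃ s', Inv (t + 1) s' ∧ R t s a s' ∧ Rs (q t) m (o s')) {u : Cs → ℕ → Bool}
    (hu : ∀ t, Ms (.sum L) 0 C0 t _ fun y => u y t) :
    ∃ w : Cs → ℕ → Y D, (∀ m n, LC univ fun y => q 0 (w y m) n) ∧ ∀ y, ∃ s : ℕ → S,
      ∀ t, Inv t (s t) ∧ R t (s t) (u y t) (s (t + 1)) ∧
        ∀ m < t, m < (o (s t)).b → w y m ∈ cylinder ((o (s t)).x m) (o (s t)).l := by
  classical
  have hC := (Good.ms (.sum L) 0 good_C0).1
  have w2 : ∀ n, Lip (q n) (q 0) := fun n => by
    induction n with
    | zero => exact fun _ _ _ h => h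
    | succ n ih => exact fun _ _ _ h => ih ((hT n).lip h)
  have h0 : ∀ t s a (m : Mv D), ∃ s', Inv t s → (o s).Lg m →
      Inv (t + 1) s' ∧ R t s a s' ∧ Rs (q t) m (o s') := fun t s a m => by
    by_cases h : Inv t s ∧ (o s).Lg m
    exacts [(tot _ _ a _ h.1 h.2).imp fun _ h _ _ => h, ⟨s, fun h1 h2 => absurd ⟨h1, h2⟩ h⟩]
  choose F hF using h0
  let S : (ℕ → Bool) → Hi D → ℕ → S := fun a π t => Nat.rec s0 (fun t s => F t s (a t) (π t)) t
  have hS : ∀ a π t, S a π (t + 1) = F t (S a π t) (a t) (π t) := fun _ _ _ => rfl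
  have hS' : ∀ a a' π π' t, (∀ s < t, a s = a' s ∧ π s = π' s) → S a π t = S a' π' t := by
    intro a a' π π' t h
    induction t with
    | zero => rfl
    | succ t ih => rw [hS, hS, ih fun s hs => h s (by omega), (h t (by omega)).1, (h t (by omega)).2]
  let A : (ℕ → Bool) → ℕ → Hi D → Out O := fun a t π =>
    Nat.casesOn t (o s0) fun t => val (q t) (π t) (o (S a π (t + 1)))
  have hA : ∀ a (π : Hi D) t, (∀ k, (π t).1 k ∈ O k) →
      ans (q 0) π (t + 1) (A a (t + 1)) = val (q t) (π t) (o (S a π (t + 1))) := fun a π t h => by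
    simp only [ans, A]
    rw [hS' a a (cut (t + 1) π) π _ fun s hs => ⟨rfl, if_pos hs⟩,
      show cut (t + 1) π t = π t from if_pos (Nat.lt_succ_self t)]
    exact val_of ((val_rs hO h _).lip (w2 t))
  let _ : Inhabited (Out O) := ⟨o s0⟩
  choose Φ hΦ using fun n => exists_spec hO (L n) (0 + n + 1) (Unit × Hi D)
    ((good_C0.cp (L := L) (c := 0)).1 n) (hp (n + 1)) (hT n)
  obtain ⟨Ψ, h2, ply⟩ := spec_lim good_C0 (fun n => (hT n).lip) hΦ (fun t y _ => A (u y) t)
    (fun j => by
      convert hC.fin (T := 0 + j) (φ := fun t y => u y t) (u default)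
        (fun a (_ : Unit) => A a j) j fun t ht => hC.mono (by omega) (hu t) using 2 with y
      refine funext fun _ => funext fun π => ?_
      rcases j with _ | j
      · rfl
      · exact congrArg (fun s => val (q j) (π j) (o s))
          (hS' (u y) (fun m => if m < j + 1 then u y m else u default m) π π (j + 1)
            fun s hs => ⟨by simp only [if_pos hs], rfl⟩))
    fun y _ H n h => by rw [hA _ _ _ h]; exact val_rs hO h _
  let P : Cs → ℕ → Hi D := fun y t => Nat.rec default (fun t π => Function.update π t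
    ((ans (q 0) π t (Ψ t y ())).x, (ans (q 0) π t (Ψ t y ())).l)) t
  have hP : ∀ y t, P y (t + 1) = Function.update (P y t) t
    ((ans (q 0) (P y t) t (Ψ t y ())).x, (ans (q 0) (P y t) t (Ψ t y ())).l) := fun _ _ => rfl
  have hlc : ∀ t, LC univ fun y => P y t := by
    intro t
    induction t with
    | zero => exact fun y _ => Eventually.of_forall fun _ => rfl
    | succ t ih =>
      intro y hy
      filter_upwards [ih y hy, h2 t y hy] with y' h1 h2
      rw [hP, hP, h1, h2]
  have h3 : ∀ y t, ∀ j < t, P y t j = P y (j + 1) j := fun y t => by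
    induction t with
    | zero => exact fun j hj => absurd hj (Nat.not_lt_zero j)
    | succ t ih =>
      intro j hj
      rcases (Nat.lt_succ_iff.1 hj).eq_or_lt with rfl | hj
      exacts [rfl, (Function.update_of_ne hj.ne _ _).trans (ih j hj)]
  have h4 : ∀ y, Play (q 0) (fun t => Ψ t y ()) fun t => P y (t + 1) t := fun y t => by
    rw [ans_congr (π' := P y t) fun j hj => (h3 y t j hj).symm]
    simp only [hP, Function.update_self]
    exact ⟨fun _ _ => self_mem_cylinder _ _, (ans (q 0) (P y t) t (Ψ t y ())).ok.2.1, le_rfl⟩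
  have h5 : ∀ y, ∃ z : ℕ → Y D, (∃ s : ℕ → _, ∀ t, Inv t (s t) ∧ R t (s t) (u y t) (s (t + 1)) ∧
      ∀ m < t, m < (o (s t)).b → z m ∈ cylinder ((o (s t)).x m) (o (s t)).l) ∧
      ∀ t, Agr (q 0) z (P y (t + 1) t).1 (P y (t + 1) t).2 := fun y => by
    obtain ⟨π, a, b⟩ := ply y () _ (Nat.zero_le _) (h4 y)
    have a1 : ∀ t, Inv t (S (u y) π t) ∧ ans (q 0) π t (A (u y) t) = o (S (u y) π t) := fun t => by
      induction t with
      | zero => exact ⟨i0, rfl⟩
      | succ t ih =>
        have a2 := hF t _ (u y t) (π t) ih.1 (ih.2 ▸ a t)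
        exact ⟨a2.1, (hA _ _ _ (a t).2.1).trans (val_of a2.2.2)⟩
    have a2 : ∀ t, (o (S (u y) π t)).Lg (π t) := fun t => (a1 t).2 ▸ a t
    have a3 := fun t => hF t _ (u y t) (π t) (a1 t).1 (a2 t)
    have a4 : ∀ t, t ≤ (π t).2 := fun t =>
      ((Nat.le_add_left t _).trans (Fn.le hO fun s _ => a s)).trans (a t).2.2
    have a5 : ∀ m t t', m < t → t ≤ t' → (π t').1 m ∈ cylinder ((π t).1 m) (π t).2 := by
      intro m t t' h1 h2
      induction h2 with
      | refl => exact self_mem_cylinder _ _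
      | @step k hk ih =>
        have hk : t ≤ k := hk
        have b1 := (a3 k).2.2
        have b2 := a4 k
        have b3 := b1.2
        have b4 := (o (S (u y) π (k + 1))).ok.1
        rw [← hS] at b1 b3
        exact cyl_trans (cylinder_anti _ (a.chain hO (hp 0) hk).1 (cyl_trans (cylinder_anti _
          (by omega) ((a2 (k + 1)).1 m (by omega)))
          (fz m k (by omega) _ _ ((a k).2.1 m) _ (b1.1 m (by omega))))) ih
    have a6 : ∀ m t, m < t → (fun n => (π (m + n + 1)).1 m n) ∈ cylinder ((π t).1 m) (π t).2 :=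
      fun m t h n hn => by
        rcases le_total t (m + n + 1) with h' | h'
        · exact a5 m t _ h h' n hn
        · exact (a5 m _ t (by omega) h' n (by have := a4 (m + n + 1); omega)).symm
    refine ⟨fun m n => (π (m + n + 1)).1 m n, ⟨S (u y) π, fun t => ⟨(a1 t).1, (a3 t).2.1,
      fun m h h' => cyl_trans (cylinder_anti _ (a2 t).2.2 (a6 m t h)) ((a2 t).1 m h')⟩⟩,
      fun t => Agr.trans (fun m hm => ?_) (b t).2 (b t).1⟩
    have b1 := a.chain hO (hp 0) (show t ≤ t + m + 1 by omega)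
    exact cyl_trans (cylinder_anti _ b1.1 (hp 0 (a6 m _ (by omega)))) (b1.2 m hm)
  choose w w1 w2 using h5
  have hl : ∀ y t, t ≤ (P y (t + 1) t).2 := fun y t =>
    ((Nat.le_add_left t _).trans (Fn.le hO fun s _ => h4 y s)).trans (h4 y t).2.2
  refine ⟨w, fun m n y hy => ?_, w1⟩
  have e := fun y => w2 y (max m n + 1) m (by have := hl y (max m n + 1); omega) n
    (by have := hl y (max m n + 1); omega)
  filter_upwards [hlc (max m n + 1 + 1) y hy] with y' h
  exact (e y').trans (h ▸ (e y).symm)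

end Pool.Agent.Lib.MP_5684f0_lc.W
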