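import Pool.Agent.Lib.MP_5684f0_lc.T.ImplBp

/-! `Ranks` (one code for all bits) follows from the form with the initial sums of a sequence of
codes. Only the definitions are imported. -/

namespace Pool.Agent.Lib.MP_5684f0_lc.W.Impl

open Set T

/-- The sum of the codes `L 0, …, L r`. -/
def part (L : ℕ → Lay) (r : ℕ) : Lay := .sum fun n => if n ≤ r then L n else .zero

/-- The statement with initial sums. -/
def Lim : Prop :=
  ∀ (L : ℕ → Lay) (f g : Cs → Cs) (c : Cs),
    (∀ φ : (ℕ → ℕ) → Cs, Continuous φ → ∀ a, BaireMeasurableSet {y | f (φ y) a = true}) →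
    (∀ x y, leT c x → leT x y → leM (f x) (f y)) →
    (∀ r x z w, leT c x → leT z x → Dec (part L r) z w → leT (G.P 2 w) (f x)) →
    (∀ a, ∃ r, {x | g x a = true} ∈ BooleanSubalgebra.closure {A : Set Cs | Sg (part L r) A}) →
    leCone g f

/-- The sequence with one nonzero code. -/
def fst (L : Lay) : ℕ → Lay
  | 0 => L
  | _ + 1 => .zero

theorem dec_fst {L : Lay} {r : ℕ} {z w : Cs} (h : Dec (part (fst L) r) z w) : Dec L z w := by
  obtain ⟨v, rfl, h⟩ := h
  have h1 : ∀ n, v (n + 1) = v 1 := fun n => by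
    induction n with
    | zero => rfl
    | succ n hn =>
      have := (h (n + 1)).1
      dsimp only at this
      rw [show (if n + 1 ≤ r then fst L (n + 1) else .zero) = Lay.zero from ite_self _] at this
      exact (show v (n + 2) = v (n + 1) from this).trans hn
  have h2 : w = v 1 := funext fun q => by rw [← (h (q + 1)).2 q (Nat.lt_succ_self q), h1]
  have := (h 0).1
  dsimp only at this
  rw [if_pos (Nat.zero_le r)] at this
  exact h2 ▸ this

theorem ranks (H : Lim) : T.Impl.RkB := fun L f g c hf hop hh hg =>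
  H (fst L) f g c hf hop (fun _ x z w hx hz hw => hh x z w hx hz (dec_fst hw)) fun a =>
    ⟨0, BooleanSubalgebra.closure_mono
      (fun A (h : Sg L A) => (h.imp fun _ h => ⟨fun n => mem_iUnion.2 ⟨1, h.1 n⟩, h.2⟩ :
        Sg (part (fst L) 0) A)) (hg a)⟩

/-- Every set of the class of the whole sum is a set of the additive class of a initial sum. -/
theorem cl_part (L : ℕ → Lay) {C : Set (Set Cs)} {A : Set Cs} (h : A ∈ Cl (.sum L) C) :
    ∃ r, A ∈ Cl (part L r) C := by
  obtain ⟨n, hn⟩ := mem_iUnion.1 h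
  refine ⟨n, mem_iUnion.2 ⟨n, ?_⟩⟩
  have : ∀ k ≤ n, (Nat.rec C (fun m D => Cl (if m ≤ n then L m else .zero) D) k : Set (Set Cs)) =
      Nat.rec C (fun m D => Cl (L m) D) k := fun k hk => by
    induction k with
    | zero => rfl
    | succ k ih => simp only [ih (by omega), if_pos (show k ≤ n by omega)]
  exact (this n le_rfl).ge hn

end Pool.Agent.Lib.MP_5684f0_lc.W.Impl
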