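import Pool.Agent.Lib.MP_5684f0_lc.W.Build
import Pool.Agent.Lib.MP_5684f0_lc.T.Bp

/-! An order preserving function above all initial sums of a code lies above their join. -/

namespace Pool.Agent.Lib.MP_5684f0_lc.W

open Filter Topology Set PiNat G T T.Bp

theorem lim0 {L : ℕ → Lay} {f g : Cs → Cs} (hf : ∀ φ : (ℕ → ℕ) → Cs, Continuous φ → ∀ a,
      BaireMeasurableSet {y | f (φ y) a = true}) (hop : OP f)
    (hh : ∀ r z w, Dec (.sum fun n => if n ≤ r then L n else .zero) z w → leT (P 2 w) (f z))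
    (hg : ∀ a, {x | g x a = true} ∈ Cl (.sum L) {U | IsClopen U}) : leCone g f := by
  classical
  let Y := Y ℕ
  let pr : ℕ → Y → Cs := fun r y => Sc (.sum fun n => if n ≤ r then L n else .zero) 0
    (fun a => cv y (a + 3)) (T.Hl y 3)
  have hT : ∀ r, Tower (.sum fun n => if n ≤ r then L n else .zero) 0 (T.R 3) (lev (pr r) ∅) :=
    fun r => tower _ 0 (add_left_injective 3) (empty_subset _)
      (fun a => ⟨Nat.le_add_left 3 a, notMem_empty _⟩) (ind_Hl 3)
  have cpr : ∀ r, Continuous (pr r) := fun r =>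
    continuous_pi fun q => continuous_iff_continuousAt.2 fun y => continuousAt_const.congr
      (Eventually.mono ((cyl_open y (q + 1)).mem_nhds (self_mem_cylinder y _)) fun _ h =>
        ((lev_iff.1 ((hT r).lip (T.rl 3 h))).1 q (Nat.lt_succ_self q)).symm)
  choose q q0 q1 using hT
  obtain ⟨e, he⟩ := exists_enum
  choose V hV hV' using fun (r a : ℕ) (b : Bool) =>
    (bp_bit (hf _ (cpr r) a) b).residualEq_isOpen
  have hG : ∀ r, ∀ᶠ y in residual Y, ∀ a b, f (pr r y) a = b ↔ y ∈ V r a b := fun r =>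
    eventually_countable_forall.2 fun a => eventually_countable_forall.2 fun b =>
      (hV' r a b).mem_iff
  have hcd : ∀ j k : ℕ → ℕ, Continuous fun w : ℕ → Y => code fun m => pr (j m) (w (k m)) :=
    fun j k => continuous_code.comp (continuous_pi fun m => (cpr _).comp (continuous_apply _))
  have hsh : ∀ i, Continuous fun (w : ℕ → Y) m => w (m + i) := fun i =>
    continuous_pi fun m => continuous_apply _
  let Z0 : ℕ → ℕ → Set (ℕ → Y) := fun i d =>
    (⋂ n, {w | f (code fun m => pr (m + 1 + i) (w (m + 1))) n =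
      f (code fun m => pr (m + i) (w m)) (e d.unpair.1 n)}) ∩
      ⋂ n, {w | f (pr (0 + i) (w 0)) n = f (code fun m => pr (m + i) (w m)) (e d.unpair.2 n)}
  choose Z hZ hZ' using fun i d => BaireMeasurableSet.residualEq_isOpen (s := Z0 i d)
    ((BaireMeasurableSet.iInter fun n => bp_eq (bp_two hf (hcd _ _) n)
      (bp_two hf (hcd _ _) _)).inter (.iInter fun n => bp_eq
        (bp_two hf ((cpr _).comp (continuous_apply 0)) n) (bp_two hf (hcd _ _) _)))
  have hZ1 : ∀ i, ∀ᶠ w in residual (ℕ → Y), ∀ d, w ∈ Z0 i d ↔ w ∈ Z i d := fun i =>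
    eventually_countable_forall.2 fun d => (hZ' i d).mem_iff
  have hd : ∀ i, Dense (⋃ d, Z i d) := fun k => dense_of_mem_residual ((hZ1 k).mono fun w hw => by
    obtain ⟨ρ, hρ, h1⟩ := hop _ _ (leT_code_shift fun m => pr (m + k) (w m))
    obtain ⟨σ, hσ, h2⟩ := hop _ _ (leT_code_zero fun m => pr (m + k) (w m))
    obtain ⟨i, rfl⟩ := he ρ hρ
    obtain ⟨j, rfl⟩ := he σ hσ
    exact mem_iUnion.2 ⟨Nat.pair i j, (hw _).1 ⟨mem_iInter.2 fun n => by
      simpa only [Nat.unpair_pair, mem_ofPred_eq] using h1 n, mem_iInter.2 fun n => by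
      simpa only [Nat.unpair_pair, mem_ofPred_eq] using h2 n⟩⟩)
  have hso : ∀ i, IsOpenMap fun (w : ℕ → Y) m => w (m + i) := fun i => .of_sections fun w =>
    ⟨fun v m => if m < i then w m else v (m - i), (continuous_pi fun m => by
      split_ifs; exacts [continuous_const, continuous_apply _]).continuousAt,
      funext fun m => by
        dsimp only; split_ifs with h; exacts [rfl, by rw [Nat.sub_add_cancel (not_lt.1 h)]],
      fun v => funext fun m => by simp⟩
  obtain ⟨T0, t1, t2, t3, t4⟩ := mem_residual_iff.1 ((eventually_countable_forall.2 fun i =>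
    (tendsto_residual_of_isOpenMap (hsh i) (hso i)).eventually (hZ1 i)).and
    (eventually_countable_forall.2 fun m => (tendsto_residual_of_isOpenMap
      (continuous_apply (A := fun _ : ℕ => Y) m) (isOpenMap_eval m)).eventually (hG m)))
  obtain ⟨E, hE⟩ := (t3.insert univ).exists_eq_range (insert_nonempty _ _)
  have hE' : ∀ j, IsOpen (E j) ∧ Dense (E j) := fun j => by
    rcases (hE ▸ mem_range_self j : E j ∈ insert univ T0) with h | h
    exacts [h ▸ ⟨isOpen_univ, dense_univ⟩, ⟨t1 _ h, t2 _ h⟩]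
  obtain ⟨O, a, d, o1, o2, o3⟩ := base (E := fun i => ⋂ k ∈ Iic i, E k)
    (fun r => exists_free (h := fun y => f (pr r y)) (hV r)
      ((hG r).mono fun y hy a => (hy a _).1 rfl) fun y => hh r _ _ (Sc_dec _ _ _ _)) hZ hd
    (fun j => (finite_Iic j).isOpen_biInter fun k _ => (hE' k).1)
    fun j => dense_biInter_of_isOpen (fun k _ => (hE' k).1) (to_countable _) fun k _ => (hE' k).2
  obtain ⟨hC, -⟩ := Good.ms (.sum L) 0 good_C0
  choose tm hm using fun m => Cl.ms (.sum L) 0 good_C0 (fun U (hU : IsClopen U) => ⟨0, fun y _ =>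
    mem_nhdsWithin_of_mem_nhds (by
      by_cases h : y ∈ U
      · filter_upwards [hU.2.mem_nhds h] with y' h' using by simp [h, h']
      · filter_upwards [hU.1.isOpen_compl.mem_nhds h] with y' h' using
          propext (iff_of_false h' h))⟩) _ (hg m)
  have r0 : Lip (T.R 0) id := fun y z M h n hn => dc.injective (Prod.ext
    ((lev_iff.1 h).1 n hn) (Finsupp.ext fun a => (lev_iff.1 h).2 a (Nat.zero_le a) n hn))
  have r1 : ∀ r n, Lip id (q r n) := fun r n _ _ _ h => (q1 r n).1 (T.rl 3 h)
  obtain ⟨w, w1, w2⟩ := build (L := L) (T.rl 3) o1 o3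
    (fun i j h => biInter_subset_biInter_left (Iic_subset_Iic.2 h))
    (P := fun n r => if n ≤ r then q r n else T.R 0)
    (fun n r => by split_ifs; exacts [r1 _ _, T.rl 0])
    (fun n r => by
      by_cases h : n < r
      · simpa only [if_pos h.le, if_pos (Nat.succ_le_of_lt h)] using (q1 r n).2
      · rw [if_neg (show ¬ n + 1 ≤ r from h)]
        exact top_tower r0 (T.rl 0) _ _ _ (by split_ifs; exacts [r1 _ _, T.rl 0]))
    (fun n r h => by rw [if_neg h.not_ge]; exact r0)
    (fun n r h => by rw [if_pos h]; exact (q1 r n).1)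
    (u := fun y t => decide (tm t.unpair.1 ≤ t ∧ g y t.unpair.1 = true)) fun t => by
      by_cases h : tm t.unpair.1 ≤ t
      · simpa [h] using hC.map (fun a : Prop => decide a) (hC.mono h (hm _))
      · simpa [h] using hC.const t false
  have hw := fun y => t4 (a := w y) fun s hs => by
    obtain ⟨j, rfl⟩ : s ∈ range E := hE ▸ mem_insert_of_mem _ hs
    exact mem_iInter₂.1 ((w2 y).2 j) j (le_refl j)
  have hz := fun y i => ((hw y).1 i _).2 (o2 i (w y) fun m => ((w2 y).1 m).1)
  let κ : ℕ → ℕ → ℕ := fun i => Nat.rec id (fun i k n => k (e (d i).unpair.1 n)) i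
  obtain ⟨c, hc⟩ := exists_leT_of_lc (Y := univ) (θ := fun y => code fun m => pr m (w y m))
    fun n y hy => (w1 n.unpair.1 n.unpair.2 y hy).mono fun _ h => by
      simp only [if_pos (Nat.zero_le _), q0] at h
      exact congrArg Prod.fst h
  obtain ⟨c', hc'⟩ := exists_rec fun m => κ (Nat.pair m (tm m))
    (e (d (Nat.pair m (tm m))).unpair.2 (a (Nat.pair m (tm m))))
  obtain ⟨c2, h1, h2⟩ := exists_upper2 c c'
  refine ⟨c2, fun y hy => ?_⟩
  obtain ⟨ρ, hρ, h⟩ := hop _ _ (hc y trivial (h1.trans hy))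
  refine ⟨_, tr_iff.2 ((Rec.of_computable hρ).comp (hc'.mono h2)), fun m => ?_⟩
  have hκ : ∀ i n, f (code fun m => pr (m + i) (w y (m + i))) n =
      f (code fun m => pr m (w y m)) (κ i n) := by
    intro i
    induction i with
    | zero => exact fun n => rfl
    | succ i ih =>
      intro n
      have h1 := mem_iInter.1 (hz y i).1 n
      simp only [mem_ofPred_eq, Nat.add_right_comm _ 1 i] at h1
      exact h1.trans (ih _)
  have h3 := mem_iInter.1 (hz y (Nat.pair m (tm m))).2 (a (Nat.pair m (tm m)))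
  simp only [mem_ofPred_eq, Nat.zero_add] at h3
  have h4 := ((hw y).2 _ _ _).2 ((w2 y).1 (Nat.pair m (tm m))).2
  simp only [Nat.unpair_pair, Nat.right_le_pair, true_and, Bool.decide_eq_true] at h4
  rw [← h4, h3, hκ, h]

theorem lim {L : ℕ → Lay} {f g : Cs → Cs} {c : Cs} (hf : ∀ φ : (ℕ → ℕ) → Cs, Continuous φ → ∀ a,
      BaireMeasurableSet {y | f (φ y) a = true})
    (hop : ∀ x y, leT c x → leT x y → leM (f x) (f y))
    (hh : ∀ r x z w, leT c x → leT z x → Dec (.sum fun n => if n ≤ r then L n else .zero) z w →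
      leT (P 2 w) (f x))
    (hg : ∀ a, {x | g x a = true} ∈ Cl (.sum L) {U | IsClopen U}) : leCone g f :=
  leCone_of (c := c) (c' := c) (lim0 (f := fun x => f (join x c))
    (fun _ hφ => hf _ ((continuous_join c).comp hφ))
    (fun x y h => hop _ _ (leT_join_right x c)
      (join_leT (h.trans (leT_join_left y c)) (leT_join_right y c)))
    (fun r z w => hh r _ _ w (leT_join_right z c) (leT_join_left z c)) hg)
    (fun _ _ => ⟨id, Computable.id, fun _ => rfl⟩)
    fun x hx => hop _ _ (leT_join_right x c) (join_leT (leT_refl x) hx)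

end Pool.Agent.Lib.MP_5684f0_lc.W
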