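import Pool.Agent.Lib.MP_5684f0_lc.W.Main
import Pool.Agent.Lib.MP_5684f0_lc.T.Bor

/-! One statement for the case of a last layer and for the case of unboundedly many layers
(form proposed by helper3). -/

namespace Pool.Agent.Lib.MP_5684f0_lc.W

open Set T T.Bor

/-- Codes without a limit. -/
def Nul : Lay → Prop
  | .zero => True
  | .one => False
  | .sum L => ∀ n, Nul (L n)

theorem Nul.sub (L : Lay) : ∀ C, Nul L → Cl L C ⊆ C := by
  induction L with
  | zero => exact fun _ _ => Subset.rfl
  | one => exact fun _ h => h.elim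
  | sum L ih =>
    refine fun C h => iUnion_subset fun n => ?_
    induction n with
    | zero => exact Subset.rfl
    | succ n h' => exact (ih n _ (h n)).trans h'

theorem one_sub (L : Lay) (C : Set (Set Cs)) : ¬ Nul L → Cl .one C ⊆ Cl L C := by
  induction L with
  | zero => exact fun h => (h trivial).elim
  | one => exact fun _ => Subset.rfl
  | sum L ih =>
    intro h
    obtain ⟨n, hn⟩ := not_forall.1 h
    exact (ih n hn).trans (one_code L C n)

theorem It_le {L L' : ℕ → Lay} (h : ∀ n, L n = L' n ∨ Nul (L n)) (C : Set (Set Cs)) (n : ℕ) :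
    It L C n ⊆ It L' C n := by
  induction n with
  | zero => exact Subset.rfl
  | succ n ih =>
    rcases h n with h | h
    · exact (show Cl (L n) _ ⊆ Cl (L' n) _ from h ▸ Subset.rfl).trans (Cl_mono _ _ _ ih)
    · exact (Nul.sub _ _ h).trans (ih.trans (sub_Cl _ _))

theorem part_sub (L : ℕ → Lay) (r : ℕ) :
    Cl (.sum fun n => if n ≤ r then L n else .zero) K ⊆ It L K (r + 1) := by
  refine iUnion_subset fun n => ?_
  induction n with
  | zero => exact It_mono L K (Nat.zero_le _)
  | succ n ih =>
    by_cases h : n ≤ r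
    · exact (It_le (L := fun n => if n ≤ r then L n else .zero)
        (fun n => by split_ifs; exacts [Or.inl rfl, Or.inr trivial]) K (n + 1)).trans
        (It_mono L K (Nat.succ_le_succ h))
    · exact (Nul.sub _ _ (by simp only [if_neg h]; trivial)).trans ih

theorem closure_sub {M : Lay} {A : Set Cs} (hA : A ∈ BooleanSubalgebra.closure {U | Sg M U}) :
    A ∈ Cl .one (Cl M K) := by
  have h1 := Cl_dif .one _ (Cl_dif M K difK)
  have h2 : univ ∈ Cl .one (Cl M K) := sub_Cl _ _ (sub_Cl M K isClopen_univ)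
  induction hA using BooleanSubalgebra.closure_bot_sup_induction with
  | mem x hx =>
    obtain ⟨B, hB, rfl⟩ := hx
    obtain ⟨n, hn⟩ := mem_iUnion.1 (union_mem hB)
    refine (show It _ K (n + 2) ⊆ Cl .one (Cl M K) from ?_) (It_mono _ K (Nat.le_add_right n 2) hn)
    clear hn
    induction n with
    | zero => exact Subset.rfl
    | succ n ih => exact ih
  | bot => exact sub_Cl _ _ (sub_Cl M K isClopen_empty)
  | sup A _ B _ a b =>
    convert h1 _ h2 _ (h1 _ (h1 _ h2 _ a) _ b) using 1
    ext y
    simp only [sup_eq_union, mem_union, Set.mem_sdiff, mem_univ, true_and]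
    tauto
  | compl A _ a => exact compl_eq_univ_sdiff A ▸ h1 _ h2 _ a

theorem limit {L : ℕ → Lay} {f g : Cs → Cs} {c : Cs}
    (hf : ∀ φ : (ℕ → ℕ) → Cs, Continuous φ → ∀ a, BaireMeasurableSet {y | f (φ y) a = true})
    (hop : ∀ x y, leT c x → leT x y → leM (f x) (f y))
    (hh : ∀ r x z w, leT c x → leT z x → Dec (.sum fun n => if n ≤ r then L n else .zero) z w →
      leT (G.P 2 w) (f x))
    (hg : ∀ a, ∃ r, {x | g x a = true} ∈ BooleanSubalgebra.closure
      {A : Set Cs | Sg (.sum fun n => if n ≤ r then L n else .zero) A}) : leCone g f := by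
  by_cases h : ∃ r, ∀ n, r < n → Nul (L n)
  · obtain ⟨r, h⟩ := h
    refine Bp.high hf hop (hh r) fun a => ?_
    obtain ⟨r', h'⟩ := hg a
    refine BooleanSubalgebra.closure_mono (fun A (hA : Sg _ A) => (?_ : Sg _ A)) h'
    refine hA.imp fun B b => ⟨fun n => iUnion_mono (It_le (L := fun n => if n ≤ r' then L n else .zero)
      (L' := fun n => if n ≤ r then L n else .zero) (fun n => ?_) _) (b.1 n), b.2⟩
    split_ifs with h1 h2
    exacts [Or.inl rfl, Or.inr (h n (not_le.1 h2)), Or.inr trivial, Or.inr trivial]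
  · refine lim hf hop hh fun a => ?_
    obtain ⟨r, h'⟩ := hg a
    push Not at h
    obtain ⟨n, h1, h2⟩ := h r
    exact mem_iUnion.2 ⟨n + 1, one_sub _ _ h2
      (Cl_mono .one _ _ ((part_sub L r).trans (It_mono L K h1)) (closure_sub h'))⟩

end Pool.Agent.Lib.MP_5684f0_lc.W
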